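import Pool.Agent.Q35.WR.Num
import Pool.Agent.Q57.TP.Mak
import Pool.Agent.Q57.TQ.Mak

/-! # Real boundaries -/

set_option autoImplicit false
set_option linter.unusedSectionVars false

open FF MvPolynomial Pool.Agent.W603.LV Pool.Agent.W602.GT Pool.Agent.Y169.CH Pool.Agent.Y169.TH
open Pool.Agent.Q57.TP

namespace Pool.Agent.Q35.WR

section

variable {K : Type} [Field K] [Algebra ℂ K] (N : ℕ)

/-- sections of `m (K + Δ) + j A` for a real `Δ` -/
def RSec (δ : Place ℂ K → ℝ) (S : Finset K) (m j : ℕ)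
    (ω : (Fin N → Derivation ℂ K K) → K) : Prop :=
  IsPluri m ω ∧ ∀ P : Place ℂ K, Divisorial N P → ∀ D : Fin N → Derivation ℂ K K,
    (∀ c, DerReg P (D c)) → ω D = 0 ∨ ∃ s ∈ S, s ≠ 0 ∧
      (j : ℝ) * P.ord s - m * δ P ≤ P.ord (ω D)

/-- pseudo-effective -/
def RPsef (δ : Place ℂ K → ℝ) : Prop :=
  ∃ S : Finset K, ∀ M : ℕ, ∃ j : ℕ, 1 ≤ j ∧ ∃ ω : (Fin N → Derivation ℂ K K) → K, ω ≠ 0 ∧
    RSec N δ S (j * M) j ω

/-- effective -/
def REff (δ : Place ℂ K → ℝ) : Prop :=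
  ∃ (r : ℕ) (g : Fin r → ℕ) (t : Fin r → ℝ) (ω : Fin r → (Fin N → Derivation ℂ K K) → K),
    (∀ b, 1 ≤ g b ∧ 0 ≤ t b ∧ ω b ≠ 0 ∧ IsPluri (g b) (ω b)) ∧ ∑ b, t b * g b = 1 ∧
    ∀ P : Place ℂ K, Divisorial N P → ∀ D : Fin N → Derivation ℂ K K, (∀ c, DerReg P (D c)) →
      (∀ b, ω b D ≠ 0) → - δ P ≤ ∑ b, t b * P.ord (ω b D)

variable {N}

theorem bpsef_of_rpsef {δ : Place ℂ K → ℝ} {δ' : Place ℂ K → ℚ} (h : ∀ P, δ P ≤ δ' P)
    (hp : RPsef N δ) : BPsef N δ' := by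
  obtain ⟨S, hS⟩ := hp
  refine ⟨S, fun M => ?_⟩
  obtain ⟨j, hj, ω, hω0, hω⟩ := hS M
  refine ⟨j, hj, ω, hω0, hω.1, fun P hP D hD => (hω.2 P hP D hD).imp id ?_⟩
  rintro ⟨s, hs, hs0, hle⟩
  refine ⟨s, hs, hs0, ?_⟩
  have h1 : ((j * M : ℕ) : ℝ) * δ P ≤ ((j * M : ℕ) : ℝ) * δ' P :=
    mul_le_mul_of_nonneg_left (h P) (Nat.cast_nonneg _)
  have h2 : (j : ℝ) * P.ord s - ((j * M : ℕ) : ℝ) * δ' P ≤ P.ord (ω D) := by linarith
  exact_mod_cast h2

theorem exists_form {δ : Place ℂ K → ℚ} (h : BKod N δ 0) :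
    ∃ m : ℕ, 1 ≤ m ∧ ∃ ω : (Fin N → Derivation ℂ K K) → K, ω ≠ 0 ∧ IsPluri m ω ∧
      ∀ P : Place ℂ K, Divisorial N P → ∀ D : Fin N → Derivation ℂ K K,
        (∀ c, DerReg P (D c)) → ω D ≠ 0 → - (m * δ P : ℚ) ≤ P.ord (ω D) := by
  obtain ⟨m, hm, ω, hω, D, hD, -⟩ := h
  refine ⟨m, hm, ω 0, fun h0 => hD (congrFun h0 D), (hω 0).1, fun P hP D hD h0 => ?_⟩
  obtain ⟨s, hs, -, hle⟩ := ((hω 0).2 P hP D hD).resolve_left h0
  rw [Finset.mem_singleton] at hs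
  subst hs
  rw [P.ord_one] at hle
  push_cast at hle
  linarith

/-- an element with poles along the hypersurfaces -/
theorem form_ge {n : ℕ} {x : Fin (n + 1) → K} (hx : ∀ j, x j ≠ 0)
    {F : MvPolynomial (Fin (n + 1)) ℂ} {dF : ℕ} (hh : F.IsHomogeneous dF)
    (hF : aeval x F ≠ 0) (P : Place ℂ K) :
    dF * minO x P ≤ P.ord (aeval x F) := by
  obtain ⟨l, -, hl⟩ := Finset.exists_mem_eq_inf' (Finset.univ_nonempty (α := Fin (n + 1)))
    fun j => P.ord (x j)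
  have hl' : minO x P = P.ord (x l) := hl
  have h1 : aeval x F = x l ^ dF * aeval (fun j => x j / x l) F := by
    rw [← aeval_smul_form hh]
    congr 2
    funext j
    rw [mul_div_cancel₀ _ (hx l)]
  have h2 : Ge P 0 (aeval (fun j => x j / x l) F) := by
    have hreg : ∀ j, P.Reg (x j / x l) := by
      intro j
      refine Or.inr ?_
      rw [P.ord_div (hx j) (hx l)]
      have := minO_le x P j
      rw [hl'] at this
      linarith
    exact reg_aeval hreg F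
  have h3 : aeval (fun j => x j / x l) F ≠ 0 := by
    intro h
    rw [h, mul_zero] at h1
    exact hF h1
  rw [h1, P.ord_mul (pow_ne_zero _ (hx l)) h3, P.ord_pow, hl']
  have := h2.resolve_left h3
  linarith

end

section fg

variable {N : ℕ}

/-- linear functions -/
theorem fg_lin {Ad : (Fin N → ℕ) → Prop} {L : ℕ} (hL : 0 < L) (hu : ∀ k, Ad (Pi.single k L))
    {y : Fin N → ℚ} {c : (Fin N → ℕ) → ℚ} (hc : ∀ v, Ad v → 1 - c v = ∑ k, (v k : ℚ) * y k) :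
    ∃ T : Finset (Fin N → ℕ), (∀ s ∈ T, Ad s) ∧ ∀ v, Ad v →
    ∃ w : (Fin N → ℕ) → ℚ, (∀ s, 0 ≤ w s) ∧ (∀ k, ∑ s ∈ T, w s * s k ≤ v k) ∧
      1 - c v ≤ ∑ s ∈ T, w s * (1 - c s) := by
  classical
  have hL' : (L : ℚ) ≠ 0 := by exact_mod_cast hL.ne'
  refine ⟨Finset.univ.image fun k => Pi.single k L, fun s hs => ?_, fun v hv => ?_⟩
  · obtain ⟨k, -, rfl⟩ := Finset.mem_image.1 hs
    exact hu k
  · have key : ∀ f : (Fin N → ℕ) → ℚ,
        ∑ s ∈ Finset.univ.image (fun k : Fin N => (Pi.single k L : Fin N → ℕ)),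
          (∑ k : Fin N, if s = Pi.single k L then (v k : ℚ) / L else 0) * f s =
        ∑ k : Fin N, (v k : ℚ) / L * f (Pi.single k L) := by
      intro f
      simp only [Finset.sum_mul]
      rw [Finset.sum_comm]
      refine Finset.sum_congr rfl fun k _ => ?_
      simp only [ite_mul, zero_mul]
      rw [Finset.sum_ite_eq', if_pos (Finset.mem_image_of_mem _ (Finset.mem_univ k))]
    refine ⟨fun s => ∑ k : Fin N, if s = Pi.single k L then (v k : ℚ) / L else 0, fun s => ?_,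
      fun k => ?_, ?_⟩
    · refine Finset.sum_nonneg fun k _ => ?_
      split_ifs
      · positivity
      · exact le_rfl
    · rw [key fun s => (s k : ℚ)]
      rw [Finset.sum_eq_single k]
      · rw [Pi.single_eq_same]
        field_simp
        exact le_rfl
      · intro b _ hb
        rw [Pi.single_eq_of_ne hb.symm]
        simp
      · intro h
        exact absurd (Finset.mem_univ k) h
    · rw [key fun s => 1 - c s, hc v hv]
      refine Finset.sum_le_sum fun k _ => le_of_eq ?_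
      rw [hc _ (hu k), Finset.sum_eq_single k]
      · rw [Pi.single_eq_same]
        field_simp
      · intro b _ hb
        rw [Pi.single_eq_of_ne hb]
        simp
      · intro h
        exact absurd (Finset.mem_univ k) h

open Classical in
/-- the linear boundary -/
noncomputable def lin (Ad : (Fin N → ℕ) → Prop) (y : Fin N → ℚ) (c : (Fin N → ℕ) → ℝ)
    (v : Fin N → ℕ) : ℚ :=
  if Ad v then 1 - ∑ k, (v k : ℚ) * y k else ⌊c v⌋

variable {Ad : (Fin N → ℕ) → Prop} {y : Fin N → ℚ} {c : (Fin N → ℕ) → ℝ}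

theorem lin_zero (h0 : ∀ v, Ad v → v ≠ 0) (hc0 : c 0 = 0) : lin Ad y c 0 = 0 := by
  unfold lin
  rw [if_neg fun h => h0 0 h rfl, hc0]
  simp

theorem lin_ad {v : Fin N → ℕ} (hv : Ad v) : 1 - lin Ad y c v = ∑ k, (v k : ℚ) * y k := by
  unfold lin
  rw [if_pos hv]
  ring

theorem lin_not {v : Fin N → ℕ} (hv : ¬ Ad v) : ((lin Ad y c v : ℚ) : ℝ) ≤ c v := by
  unfold lin
  rw [if_neg hv]
  have := Int.floor_le (c v)
  push_cast
  exact this

theorem lin_le_one' (hy : ∀ v, Ad v → 0 ≤ ∑ k, (v k : ℚ) * y k) (hc1 : ∀ v, c v ≤ 1)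
    (v : Fin N → ℕ) : lin Ad y c v ≤ 1 := by
  by_cases hv : Ad v
  · have h1 := lin_ad (y := y) (c := c) hv
    have h2 := hy v hv
    linarith
  · have h1 := (lin_not (y := y) hv).trans (hc1 v)
    exact_mod_cast h1

theorem lin_le_one (hy : ∀ k, 0 ≤ y k) (hc1 : ∀ v, c v ≤ 1) (v : Fin N → ℕ) :
    lin Ad y c v ≤ 1 :=
  lin_le_one' (fun v _ => Finset.sum_nonneg fun k _ => mul_nonneg (Nat.cast_nonneg _) (hy k)) hc1 v

theorem lin_ray (hr : ∀ v (r : ℕ), 1 ≤ r → Ad v → Ad (r • v)) (v : Fin N → ℕ) (r : ℕ)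
    (hr1 : 1 ≤ r) (hv : Ad v) : 1 - lin Ad y c (r • v) ≤ r * (1 - lin Ad y c v) := by
  rw [lin_ad hv, lin_ad (hr v r hr1 hv), Finset.mul_sum]
  refine le_of_eq (Finset.sum_congr rfl fun k _ => ?_)
  rw [Pi.smul_apply, smul_eq_mul, Nat.cast_mul]
  ring

end fg

end Pool.Agent.Q35.WR
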