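import Mathlib

/-! # Rational approximations of a real function on the vectors -/

set_option autoImplicit false

namespace Pool.Agent.Q35.WR

variable {N : ℕ}

/-- a rational approximation from above of the coefficients -/
noncomputable def ap (c : (Fin N → ℕ) → ℝ) (n : ℕ) (v : Fin N → ℕ) : ℚ :=
  if v = 0 then 0 else if ∑ k, v k ≤ n then
    1 - ((∑ k, v k : ℕ) : ℚ) * ⌊(n : ℝ) * ((1 - c v) / ((∑ k, v k : ℕ) : ℝ))⌋ / n else 1

variable {c : (Fin N → ℕ) → ℝ} {n : ℕ}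

theorem ap_zero : ap c n 0 = 0 := if_pos rfl

theorem sum_pos' {v : Fin N → ℕ} (hv : v ≠ 0) : 0 < ∑ k, v k := by
  by_contra h
  push Not at h
  apply hv
  funext k
  have h1 : v k ≤ ∑ k, v k := Finset.single_le_sum (f := v) (fun _ _ => Nat.zero_le _)
    (Finset.mem_univ k)
  have : v k = 0 := by omega
  exact this

theorem floor_nn (hc1 : ∀ v, c v ≤ 1) (v : Fin N → ℕ) :
    (0 : ℚ) ≤ (⌊(n : ℝ) * ((1 - c v) / ((∑ k, v k : ℕ) : ℝ))⌋ : ℚ) := by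
  have h1 : (0 : ℝ) ≤ (n : ℝ) * ((1 - c v) / ((∑ k, v k : ℕ) : ℝ)) :=
    mul_nonneg (Nat.cast_nonneg _) (div_nonneg (by linarith [hc1 v]) (Nat.cast_nonneg _))
  exact_mod_cast Int.floor_nonneg.2 h1

theorem ap_le_one (hc1 : ∀ v, c v ≤ 1) (v : Fin N → ℕ) : ap c n v ≤ 1 := by
  unfold ap
  split_ifs
  · exact zero_le_one
  · have h1 := floor_nn (n := n) hc1 v
    have h2 : (0 : ℚ) ≤ ((∑ k, v k : ℕ) : ℚ) *
        ⌊(n : ℝ) * ((1 - c v) / ((∑ k, v k : ℕ) : ℝ))⌋ / n := by positivity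
    linarith
  · exact le_rfl

theorem ap_ge (hc0 : c 0 = 0) (hc1 : ∀ v, c v ≤ 1) (hn : 1 ≤ n) (v : Fin N → ℕ) :
    c v ≤ (ap c n v : ℝ) := by
  unfold ap
  split_ifs with h0 h1
  · rw [h0, hc0]
    simp
  · have hs : (0 : ℝ) < ((∑ k, v k : ℕ) : ℝ) := by exact_mod_cast sum_pos' h0
    have hn' : (0 : ℝ) < (n : ℝ) := by exact_mod_cast hn
    have h2 := Int.floor_le ((n : ℝ) * ((1 - c v) / ((∑ k, v k : ℕ) : ℝ)))
    push_cast at h2 hs ⊢
    have h3 : (∑ k, (v k : ℝ)) * (⌊(n : ℝ) * ((1 - c v) / (∑ k, (v k : ℝ)))⌋ : ℝ) / n ≤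
        (∑ k, (v k : ℝ)) * ((n : ℝ) * ((1 - c v) / (∑ k, (v k : ℝ)))) / n := by
      gcongr
    have h4 : (∑ k, (v k : ℝ)) * ((n : ℝ) * ((1 - c v) / (∑ k, (v k : ℝ)))) / n = 1 - c v := by
      field_simp
    linarith
  · simpa using hc1 v

theorem ap_close (hn : 1 ≤ n) {v : Fin N → ℕ} (hv : v ≠ 0) (hvn : ∑ k, v k ≤ n) :
    1 - c v ≤ 1 - (ap c n v : ℝ) + (∑ k, v k : ℕ) / n := by
  unfold ap
  rw [if_neg hv, if_pos hvn]
  have hs : (0 : ℝ) < ((∑ k, v k : ℕ) : ℝ) := by exact_mod_cast sum_pos' hv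
  have hn' : (0 : ℝ) < (n : ℝ) := by exact_mod_cast hn
  have h2 := (Int.lt_floor_add_one ((n : ℝ) * ((1 - c v) / ((∑ k, v k : ℕ) : ℝ)))).le
  push_cast at h2 hs ⊢
  have h3 : (∑ k, (v k : ℝ)) * ((n : ℝ) * ((1 - c v) / (∑ k, (v k : ℝ)))) / n ≤
      (∑ k, (v k : ℝ)) * ((⌊(n : ℝ) * ((1 - c v) / (∑ k, (v k : ℝ)))⌋ : ℝ) + 1) / n := by
    gcongr
  have h4 : (∑ k, (v k : ℝ)) * ((n : ℝ) * ((1 - c v) / (∑ k, (v k : ℝ)))) / n = 1 - c v := by
    field_simp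
  have h5 : (∑ k, (v k : ℝ)) * ((⌊(n : ℝ) * ((1 - c v) / (∑ k, (v k : ℝ)))⌋ : ℝ) + 1) / n =
      (∑ k, (v k : ℝ)) * (⌊(n : ℝ) * ((1 - c v) / (∑ k, (v k : ℝ)))⌋ : ℝ) / n +
        (∑ k, (v k : ℝ)) / n := by ring
  linarith

theorem ap_ray (hc1 : ∀ v, c v ≤ 1) {Ad : (Fin N → ℕ) → Prop} (h0 : ∀ v, Ad v → v ≠ 0)
    (hmul : ∀ v (r : ℕ), 1 ≤ r → Ad v → 1 - c (r • v) ≤ r * (1 - c v))
    (v : Fin N → ℕ) (r : ℕ) (hr : 1 ≤ r) (hv : Ad v) :
    1 - ap c n (r • v) ≤ r * (1 - ap c n v) := by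
  have hv0 := h0 v hv
  have hrv0 : r • v ≠ 0 := by
    intro h
    apply hv0
    funext k
    have h1 := congrFun h k
    simp only [Pi.smul_apply, smul_eq_mul, Pi.zero_apply] at h1
    rcases Nat.mul_eq_zero.1 h1 with h2 | h2
    · omega
    · exact h2
  have hsum : ∑ k, (r • v) k = r * ∑ k, v k := by
    rw [Finset.mul_sum]
    rfl
  have hle : ∑ k, v k ≤ ∑ k, (r • v) k := by
    rw [hsum]
    exact Nat.le_mul_of_pos_left _ hr
  have hnn : (0 : ℚ) ≤ 1 - ap c n v := by linarith [ap_le_one (n := n) hc1 v]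
  by_cases h1 : ∑ k, (r • v) k ≤ n
  · unfold ap
    rw [if_neg hrv0, if_pos h1, if_neg hv0, if_pos (hle.trans h1), hsum]
    have hs : (0 : ℝ) < ((∑ k, v k : ℕ) : ℝ) := by exact_mod_cast sum_pos' hv0
    have hr' : (0 : ℝ) < (r : ℝ) := by exact_mod_cast hr
    have h2 : (1 - c (r • v)) / ((r * ∑ k, v k : ℕ) : ℝ) ≤ (1 - c v) / ((∑ k, v k : ℕ) : ℝ) := by
      rw [div_le_div_iff₀ (by rw [Nat.cast_mul]; positivity) hs]
      have h3 := mul_le_mul_of_nonneg_right (hmul v r hr hv) hs.le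
      rw [Nat.cast_mul]
      linarith
    have h3 : ⌊(n : ℝ) * ((1 - c (r • v)) / ((r * ∑ k, v k : ℕ) : ℝ))⌋ ≤
        ⌊(n : ℝ) * ((1 - c v) / ((∑ k, v k : ℕ) : ℝ))⌋ :=
      Int.floor_le_floor (mul_le_mul_of_nonneg_left h2 (Nat.cast_nonneg _))
    have h4 : (⌊(n : ℝ) * ((1 - c (r • v)) / ((r * ∑ k, v k : ℕ) : ℝ))⌋ : ℚ) ≤
        (⌊(n : ℝ) * ((1 - c v) / ((∑ k, v k : ℕ) : ℝ))⌋ : ℚ) := by exact_mod_cast h3
    have h5 : ((r * ∑ k, v k : ℕ) : ℚ) *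
        (⌊(n : ℝ) * ((1 - c (r • v)) / ((r * ∑ k, v k : ℕ) : ℝ))⌋ : ℚ) / n ≤
        ((r * ∑ k, v k : ℕ) : ℚ) *
        (⌊(n : ℝ) * ((1 - c v) / ((∑ k, v k : ℕ) : ℝ))⌋ : ℚ) / n := by
      gcongr
    have h6 : ((r * ∑ k, v k : ℕ) : ℚ) *
        (⌊(n : ℝ) * ((1 - c v) / ((∑ k, v k : ℕ) : ℝ))⌋ : ℚ) / n =
        r * (((∑ k, v k : ℕ) : ℚ) *
        (⌊(n : ℝ) * ((1 - c v) / ((∑ k, v k : ℕ) : ℝ))⌋ : ℚ) / n) := by
      rw [Nat.cast_mul]
      ring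
    rw [h6] at h5
    linarith
  · have h2 : ap c n (r • v) = 1 := by
      unfold ap
      rw [if_neg hrv0, if_neg h1]
    rw [h2, sub_self]
    exact mul_nonneg (Nat.cast_nonneg _) hnn

open Classical in
theorem ap_fg (Ad : (Fin N → ℕ) → Prop) (h0 : ∀ v, Ad v → v ≠ 0) :
    ∃ T : Finset (Fin N → ℕ), (∀ s ∈ T, Ad s) ∧ ∀ v, Ad v →
    ∃ w : (Fin N → ℕ) → ℚ, (∀ s, 0 ≤ w s) ∧ (∀ k, ∑ s ∈ T, w s * s k ≤ v k) ∧
      1 - ap c n v ≤ ∑ s ∈ T, w s * (1 - ap c n s) := by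
  have hfin : {v : Fin N → ℕ | Ad v ∧ ∑ k, v k ≤ n}.Finite := by
    refine (Set.Finite.pi (t := fun _ : Fin N => Set.Iic n) fun _ => Set.finite_Iic n).subset ?_
    rintro v ⟨-, hv⟩ k -
    exact (Finset.single_le_sum (f := v) (fun _ _ => Nat.zero_le _) (Finset.mem_univ k)).trans hv
  refine ⟨hfin.toFinset, fun s hs => (hfin.mem_toFinset.1 hs).1, fun v hv => ?_⟩
  by_cases hvn : ∑ k, v k ≤ n
  · refine ⟨fun s => if s = v then 1 else 0, fun s => ?_, fun k => ?_, ?_⟩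
    · dsimp only
      split_ifs
      · exact zero_le_one
      · exact le_rfl
    · simp only [ite_mul, one_mul, zero_mul]
      rw [Finset.sum_ite_eq']
      split_ifs
      · exact le_rfl
      · exact Nat.cast_nonneg _
    · simp only [ite_mul, one_mul, zero_mul]
      rw [Finset.sum_ite_eq', if_pos (hfin.mem_toFinset.2 ⟨hv, hvn⟩)]
  · refine ⟨fun _ => 0, fun s => le_rfl, fun k => ?_, ?_⟩
    · simp
    · unfold ap
      rw [if_neg (h0 v hv), if_neg hvn]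
      simp

/-- **Compactness.** -/
theorem exists_lim {dF : Fin N → ℕ} (hd : ∀ k, 0 < dF k) {D : ℝ} {α : (Fin N → ℕ) → ℝ}
    {Ad : (Fin N → ℕ) → Prop}
    (h : ∀ n : ℕ, 1 ≤ n → ∃ y : Fin N → ℝ, (∀ k, 0 ≤ y k) ∧ ∑ k, (dF k : ℝ) * y k = D ∧
      ∀ v, Ad v → ∑ k, v k ≤ n → α v ≤ ∑ k, (v k : ℝ) * y k + (∑ k, v k : ℕ) / n) :
    ∃ y : Fin N → ℝ, (∀ k, 0 ≤ y k) ∧ ∑ k, (dF k : ℝ) * y k = D ∧
      ∀ v, Ad v → α v ≤ ∑ k, (v k : ℝ) * y k := by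
  choose y hy0 hyD hy using fun n : ℕ => h (n + 1) (by omega)
  have hK : IsCompact (Set.pi Set.univ fun _ : Fin N => Set.Icc (0 : ℝ) D) :=
    isCompact_univ_pi fun _ => isCompact_Icc
  have hmem : ∀ n, y n ∈ Set.pi Set.univ fun _ : Fin N => Set.Icc (0 : ℝ) D := by
    intro n k _
    refine ⟨hy0 n k, ?_⟩
    have h1 : (dF k : ℝ) * y n k ≤ D := by
      rw [← hyD n]
      exact Finset.single_le_sum (f := fun k => (dF k : ℝ) * y n k)
        (fun k _ => mul_nonneg (Nat.cast_nonneg _) (hy0 n k)) (Finset.mem_univ k)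
    have h2 : (1 : ℝ) ≤ dF k := by exact_mod_cast hd k
    nlinarith [hy0 n k]
  obtain ⟨a, -, φ, hφ, hlim⟩ := hK.tendsto_subseq hmem
  have hk : ∀ k, Filter.Tendsto (fun n => y (φ n) k) Filter.atTop (nhds (a k)) := by
    intro k
    exact (tendsto_pi_nhds.1 hlim) k
  refine ⟨a, fun k => ge_of_tendsto' (hk k) fun n => hy0 _ k, ?_, fun v hv => ?_⟩
  · have h1 : Filter.Tendsto (fun n => ∑ k, (dF k : ℝ) * y (φ n) k) Filter.atTop
        (nhds (∑ k, (dF k : ℝ) * a k)) :=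
      tendsto_finsetSum _ fun k _ => (hk k).const_mul _
    simp only [hyD] at h1
    exact tendsto_nhds_unique h1 tendsto_const_nhds
  · have h1 : Filter.Tendsto (fun n => ∑ k, (v k : ℝ) * y (φ n) k +
        (∑ k, v k : ℕ) / ((φ n + 1 : ℕ) : ℝ)) Filter.atTop
        (nhds (∑ k, (v k : ℝ) * a k + 0)) := by
      refine Filter.Tendsto.add (tendsto_finsetSum _ fun k _ => (hk k).const_mul _) ?_
      refine Filter.Tendsto.div_atTop tendsto_const_nhds ?_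
      refine tendsto_natCast_atTop_atTop.comp ?_
      exact (Filter.tendsto_add_atTop_nat 1).comp hφ.tendsto_atTop
    rw [add_zero] at h1
    refine ge_of_tendsto h1 ?_
    filter_upwards [Filter.eventually_ge_atTop (∑ k, v k)] with n hn
    refine hy (φ n) v hv ?_
    have := hφ.id_le n
    simp only [id] at this
    omega

/-- rational points near a real point of a simplex -/
theorem exists_rat {dF : Fin N → ℕ} (hd : ∀ k, 0 < dF k) {D : ℚ} {y : Fin N → ℝ}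
    (hy0 : ∀ k, 0 ≤ y k) (hyD : ∑ k, (dF k : ℝ) * y k = D) {ε : ℝ} (hε : 0 < ε) :
    ∃ q : Fin N → ℚ, (∀ k, 0 ≤ q k) ∧ ∑ k, (dF k : ℚ) * q k = D ∧ ∀ k, y k - ε ≤ q k := by
  classical
  have h1 : ∀ k, ∃ q : ℚ, 0 ≤ q ∧ (q : ℝ) ≤ y k ∧ y k - ε ≤ q := by
    intro k
    by_cases h : y k - ε ≤ 0
    · exact ⟨0, le_rfl, by simpa using hy0 k, by simpa using h⟩
    · push Not at h
      obtain ⟨q, h2, h3⟩ := exists_rat_btwn (show y k - ε < y k by linarith)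
      exact ⟨q, by
        have : (0 : ℝ) ≤ q := by linarith
        exact_mod_cast this, h3.le, h2.le⟩
  choose q hq0 hq1 hq2 using h1
  rcases Nat.eq_zero_or_pos N with h | h
  · subst h
    refine ⟨q, fun k => k.elim0, ?_, fun k => k.elim0⟩
    simp only [Finset.univ_eq_empty, Finset.sum_empty] at hyD ⊢
    exact_mod_cast hyD
  · obtain ⟨k0⟩ : Nonempty (Fin N) := ⟨⟨0, h⟩⟩
    have hdk : (0 : ℚ) < dF k0 := by exact_mod_cast hd k0
    obtain ⟨δ, hδ⟩ : ∃ δ : ℚ, δ = (D - ∑ k, (dF k : ℚ) * q k) / dF k0 := ⟨_, rfl⟩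
    have hδ0 : 0 ≤ δ := by
      rw [hδ]
      refine div_nonneg ?_ hdk.le
      have h2 : ((∑ k, (dF k : ℚ) * q k : ℚ) : ℝ) ≤ (D : ℝ) := by
        rw [← hyD]
        push_cast
        exact Finset.sum_le_sum fun k _ => mul_le_mul_of_nonneg_left (hq1 k) (Nat.cast_nonneg _)
      have h3 : (∑ k, (dF k : ℚ) * q k : ℚ) ≤ D := by exact_mod_cast h2
      linarith
    refine ⟨fun k => q k + if k = k0 then δ else 0, fun k => ?_, ?_, fun k => ?_⟩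
    · dsimp only
      split_ifs
      · linarith [hq0 k]
      · linarith [hq0 k]
    · simp only [mul_add, mul_ite, mul_zero, Finset.sum_add_distrib]
      rw [Finset.sum_ite_eq', if_pos (Finset.mem_univ _), hδ]
      field_simp
      ring
    · push_cast
      split_ifs
      · have : (0 : ℝ) ≤ (δ : ℝ) := by exact_mod_cast hδ0
        linarith [hq2 k]
      · simpa using hq2 k

end Pool.Agent.Q35.WR
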