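import Pool.Agent.Q35.WR.Gen

/-! # Weak non-vanishing for real boundaries -/

set_option autoImplicit false
set_option linter.unusedSectionVars false

open FF MvPolynomial Pool.Agent.W603.LV Pool.Agent.W602.GT
open Pool.Agent.Q57.TP

namespace Pool.Agent.Q35.WR

section adm

variable {N R : ℕ} {M : Fin R → ℕ} {a : Fin R → Fin N → ℕ}

theorem smul_ne {v : Fin N → ℕ} (hv : v ≠ 0) {r : ℕ} (hr : 1 ≤ r) : r • v ≠ 0 := by
  intro h
  apply hv
  funext k
  have h1 := congrFun h k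
  simp only [Pi.smul_apply, smul_eq_mul, Pi.zero_apply] at h1
  rcases Nat.mul_eq_zero.1 h1 with h2 | h2
  · omega
  · exact h2

theorem smul_dvd {v : Fin N → ℕ} (hv : ∀ j, M j ∣ ∑ k, a j k * v k) (r : ℕ) (j : Fin R) :
    M j ∣ ∑ k, a j k * (r • v) k := by
  have h1 : ∑ k, a j k * (r • v) k = r * ∑ k, a j k * v k := by
    rw [Finset.mul_sum]
    refine Finset.sum_congr rfl fun k _ => ?_
    rw [Pi.smul_apply, smul_eq_mul]
    ring
  rw [h1]
  exact Dvd.dvd.mul_left (hv j) r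

theorem admA_smul (v : Fin N → ℕ) (r : ℕ) (hr : 1 ≤ r) (hv : Pool.Agent.Y169.TH.Adm M a v) :
    Pool.Agent.Y169.TH.Adm M a (r • v) := by
  obtain ⟨h1, ⟨k, hk⟩, h2⟩ := hv
  refine ⟨smul_ne h1 hr, ⟨k, ?_⟩, smul_dvd h2 r⟩
  rw [Pi.smul_apply, hk, smul_zero]

theorem admB_smul (v : Fin N → ℕ) (r : ℕ) (hr : 1 ≤ r) (hv : Pool.Agent.Y169.CH.Adm M a v) :
    Pool.Agent.Y169.CH.Adm M a (r • v) := ⟨smul_ne hv.1 hr, smul_dvd hv.2 r⟩

theorem unitA (hM : ∀ j, 0 < M j) (hN : 2 ≤ N) (k : Fin N) :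
    Pool.Agent.Y169.TH.Adm M a (Pi.single k (Pool.Agent.Y169.TH.per M)) := by
  have h := adm_unit (a := a) hM hN k
  have h1 : uv M k = Pi.single k (Pool.Agent.Y169.TH.per M) := by
    classical
    funext i
    rw [Pi.single_apply]
    rfl
  rwa [h1] at h

end adm

variable {d R : ℕ} {K : Type} [Field K] [Algebra ℂ K]

/-- **Covers of the projective space.** -/
theorem realA {x : Fin (d + 2) → K} (hx0 : x 0 ≠ 0)
    (hbas : IsTranscendenceBasis ℂ fun b : Fin (d + 1) => x b.succ / x 0)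
    {F : Fin (d + 2) → MvPolynomial (Fin (d + 2)) ℂ} {dF : Fin (d + 2) → ℕ} (hd : ∀ k, 0 < dF k)
    (hh : ∀ k, (F k).IsHomogeneous (dF k)) (hS : Pool.Agent.Y169.TH.Snc F) {z : Fin R → K}
    {M : Fin R → ℕ} (hM : ∀ j, 0 < M j) {a : Fin R → Fin (d + 2) → ℕ}
    (hz : ∀ j, z j ^ M j = ∏ k, (aeval x (F k) / x 0 ^ dF k) ^ a j k)
    (hdiv : ∀ j, M j ∣ ∑ k, a j k * dF k)
    (hgen : IntermediateField.adjoin ℂ
      (Set.range (fun b : Fin (d + 1) => x b.succ / x 0) ∪ Set.range z) = ⊤)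
    {c : (Fin (d + 2) → ℕ) → ℝ} (hc0 : c 0 = 0) (hc1 : ∀ v, c v ≤ 1)
    (hmul : ∀ v (r : ℕ), 1 ≤ r → Pool.Agent.Y169.TH.Adm M a v → 1 - c (r • v) ≤ r * (1 - c v))
    {δ : Place ℂ K → ℝ} (hδ : ∀ P, δ P = c (mul F dF x P)) :
    (RPsef (d + 1) δ ↔ ∃ y : Fin (d + 2) → ℝ, ∑ k, (dF k : ℝ) * y k = ∑ k, (dF k : ℝ) - (d + 2) ∧
      ∀ v, Pool.Agent.Y169.TH.Adm M a v → 1 - c v ≤ ∑ k, (v k : ℝ) * y k) ∧
    (RPsef (d + 1) δ → REff (d + 1) δ) := by
  classical
  have had0 : ∀ v, Pool.Agent.Y169.TH.Adm M a v → v ≠ 0 := fun v hv => hv.1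
  have hL := Pool.Agent.Y169.TH.per_pos hM
  have hunit : ∀ k, Pool.Agent.Y169.TH.Adm M a (Pi.single k (Pool.Agent.Y169.TH.per M)) :=
    unitA hM (by omega)
  have hLR : (0 : ℝ) < Pool.Agent.Y169.TH.per M := by exact_mod_cast hL
  have hxne : ∀ j, x j ≠ 0 := by
    intro j
    refine Fin.cases hx0 (fun b => ?_) j
    intro h0
    have h1 := hbas.1.ne_zero b
    rw [h0, zero_div] at h1
    exact h1 rfl
  have hFne : ∀ k, aeval x (F k) ≠ 0 := by
    obtain ⟨Φ, hΦ, C, -, -, -⟩ := exists_cv_d hx0 hbas hd hh hS hM hz hdiv hgen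
    intro k h0
    -- a nonzero form does not vanish at the generic point
    have h1 : aeval x (F k) = x 0 ^ dF k * aeval (fun j => x j / x 0) (F k) := by
      rw [← Pool.Agent.Y169.CH.aeval_smul_form (hh k)]
      congr 2
      funext j
      rw [mul_div_cancel₀ _ hx0]
    rw [h1] at h0
    have h2 := (mul_eq_zero.1 h0).resolve_left (pow_ne_zero _ hx0)
    have h3 : (fun j => x j / x 0) = Fin.cons 1 fun b : Fin (d + 1) => x b.succ / x 0 := by
      funext j
      refine Fin.cases ?_ (fun b => ?_) j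
      · rw [Fin.cons_zero, div_self hx0]
      · rw [Fin.cons_succ]
    rw [h3] at h2
    have h4 : aeval (fun b : Fin (d + 1) => x b.succ / x 0)
        (aeval (Fin.cons 1 X : Fin (d + 2) → MvPolynomial (Fin (d + 1)) ℂ) (F k)) = 0 := by
      rw [← h2, ← AlgHom.comp_apply]
      congr 1
      refine MvPolynomial.algHom_ext fun j => ?_
      rw [AlgHom.comp_apply, aeval_X, aeval_X]
      refine Fin.cases ?_ (fun b => ?_) j
      · rw [Fin.cons_zero, Fin.cons_zero, map_one]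
      · rw [Fin.cons_succ, Fin.cons_succ, aeval_X]
    have h5 := (injective_iff_map_eq_zero _).1 hbas.1 _ h4
    exact Pool.Agent.Y169.TH.deh_ne (hh k) (Pool.Agent.Y169.TH.snc_ne hS k) h5
  -- (1) the polyhedron is not empty
  have h1 : RPsef (d + 1) δ → ∃ y : Fin (d + 2) → ℝ, (∀ k, 0 ≤ y k) ∧
      ∑ k, (dF k : ℝ) * y k = ∑ k, (dF k : ℝ) - (d + 2) ∧
      ∀ v, Pool.Agent.Y169.TH.Adm M a v → 1 - c v ≤ ∑ k, (v k : ℝ) * y k := by
    intro hp
    refine exists_lim hd (Ad := Pool.Agent.Y169.TH.Adm M a) fun n hn => ?_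
    obtain ⟨h2, -, -⟩ := main_d hx0 hbas hd hh hS hM hz hdiv hgen (c := ap c n) ap_zero
      (ap_le_one hc1) (ap_ray hc1 had0 hmul) (ap_fg _ had0)
      (δ := fun P => ap c n (mul F dF x P)) (fun P => rfl)
    obtain ⟨y, hy1, hy2⟩ := h2.1 (bpsef_of_rpsef (fun P => by
      rw [hδ]
      exact ap_ge hc0 hc1 hn _) hp)
    refine ⟨fun k => (y k : ℝ), fun k => ?_, ?_, fun v hv hvn => ?_⟩
    · have h3 := hy2 _ (hunit k)
      rw [Finset.sum_eq_single k (fun b _ hb => by rw [Pi.single_eq_of_ne hb]; simp)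
        (fun h => absurd (Finset.mem_univ k) h), Pi.single_eq_same] at h3
      have h4 : (0 : ℚ) ≤ (Pool.Agent.Y169.TH.per M : ℚ) * y k :=
        le_trans (by linarith [ap_le_one (n := n) hc1 (Pi.single k (Pool.Agent.Y169.TH.per M))]) h3
      have h5 : (0 : ℚ) < Pool.Agent.Y169.TH.per M := by exact_mod_cast hL
      have h6 : 0 ≤ y k := nonneg_of_mul_nonneg_right h4 h5
      show (0 : ℝ) ≤ (y k : ℝ)
      exact_mod_cast h6
    · have h3 : ((∑ k, (dF k : ℚ) * y k : ℚ) : ℝ) = ((∑ k, (dF k : ℚ) - (d + 2 : ℕ) : ℚ) : ℝ) := by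
        rw [hy1]
      push_cast at h3
      rw [h3]
    · have h3 : ((1 - ap c n v : ℚ) : ℝ) ≤ ((∑ k, (v k : ℚ) * y k : ℚ) : ℝ) := by
        exact_mod_cast hy2 v hv
      push_cast at h3
      have h4 := ap_close (c := c) hn hv.1 hvn
      linarith
  -- (2) forms
  have h2 : ∀ y : Fin (d + 2) → ℚ, (∀ k, 0 ≤ y k) →
      ∑ k, (dF k : ℚ) * y k = ∑ k, (dF k : ℚ) - (d + 2 : ℕ) →
      ∃ m : ℕ, 1 ≤ m ∧ ∃ ω : (Fin (d + 1) → Derivation ℂ K K) → K, ω ≠ 0 ∧ IsPluri m ω ∧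
      ∀ P : Place ℂ K, Divisorial (d + 1) P → ∀ D : Fin (d + 1) → Derivation ℂ K K,
        (∀ c, DerReg P (D c)) → ω D ≠ 0 →
          - (m * lin (Pool.Agent.Y169.TH.Adm M a) y c (mul F dF x P) : ℚ) ≤ P.ord (ω D) := by
    intro y hy hyD
    obtain ⟨-, h3, -⟩ := main_d hx0 hbas hd hh hS hM hz hdiv hgen
      (c := lin (Pool.Agent.Y169.TH.Adm M a) y c) (lin_zero had0 hc0)
      (lin_le_one hy hc1) (lin_ray admA_smul) (fg_lin hL hunit fun v hv => lin_ad hv)
      (δ := fun P => lin (Pool.Agent.Y169.TH.Adm M a) y c (mul F dF x P)) (fun P => rfl)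
    exact exists_form (h3.2 ⟨y, hyD, fun v hv => by rw [lin_ad hv]⟩)
  have hnn : ∀ y : Fin (d + 2) → ℝ,
      (∀ v, Pool.Agent.Y169.TH.Adm M a v → 1 - c v ≤ ∑ k, (v k : ℝ) * y k) → ∀ k, 0 ≤ y k := by
    intro y hy k
    have h3 := hy _ (hunit k)
    rw [Finset.sum_eq_single k (fun b _ hb => by rw [Pi.single_eq_of_ne hb]; simp)
      (fun h => absurd (Finset.mem_univ k) h), Pi.single_eq_same] at h3
    have h4 : (0 : ℝ) ≤ (Pool.Agent.Y169.TH.per M : ℝ) * y k :=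
      le_trans (by linarith [hc1 (Pi.single k (Pool.Agent.Y169.TH.per M))]) h3
    exact nonneg_of_mul_nonneg_right h4 hLR
  refine ⟨⟨fun hp => ?_, ?_⟩, fun hp => ?_⟩
  · obtain ⟨y, -, hy1, hy2⟩ := h1 hp
    exact ⟨y, hy1, hy2⟩
  · -- pseudo-effective
    rintro ⟨y, hyD, hy⟩
    have hy0 := hnn y hy
    refine ⟨Finset.univ.image fun j => ∏ k, (x j ^ dF k / aeval x (F k)), fun m => ?_⟩
    obtain ⟨q, hq0, hqD, hq⟩ := exists_rat hd (D := ∑ k, (dF k : ℚ) - (d + 2 : ℕ)) hy0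
      (by rw [hyD]; push_cast; ring) (ε := 1 / ((m : ℝ) + 1)) (by positivity)
    obtain ⟨g, hg, ω, hω0, hω1, hω2⟩ := h2 q hq0 hqD
    obtain ⟨D0, hD0⟩ : ∃ D0, ω D0 ≠ 0 := by
      by_contra hcon
      push Not at hcon
      exact hω0 (funext hcon)
    refine ⟨g, hg, fun D => ω D ^ m, fun h0 => pow_ne_zero m hD0 (congrFun h0 D0),
      fun A D => ?_, fun P hP D hD => ?_⟩
    · have h3 := hω1 A D
      dsimp only
      rw [h3, mul_pow, ← pow_mul]
    · by_cases hm0 : ω D = 0 ∧ m ≠ 0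
      · left
        dsimp only
        rw [hm0.1, zero_pow hm0.2]
      right
      obtain ⟨l, -, hl⟩ := Finset.exists_mem_eq_inf' (Finset.univ_nonempty (α := Fin (d + 2)))
        fun j => P.ord (x j)
      have hl' : minO x P = P.ord (x l) := hl
      have hsne : ∀ k, x l ^ dF k / aeval x (F k) ≠ 0 := fun k =>
        div_ne_zero (pow_ne_zero _ (hxne l)) (hFne k)
      refine ⟨∏ k, (x l ^ dF k / aeval x (F k)), Finset.mem_image_of_mem _ (Finset.mem_univ l),
        Finset.prod_ne_zero_iff.2 fun k _ => hsne k, ?_⟩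
      have hord : P.ord (∏ k, (x l ^ dF k / aeval x (F k))) =
          - ∑ k, ((mul F dF x P k : ℕ) : ℤ) := by
        rw [ord_prod' P _ _ fun k _ => hsne k, ← Finset.sum_neg_distrib]
        refine Finset.sum_congr rfl fun k _ => ?_
        rw [P.ord_div (pow_ne_zero _ (hxne l)) (hFne k), P.ord_pow, ← hl']
        unfold mul
        have h3 := form_ge hxne (hh k) (hFne k) P
        rw [Int.toNat_of_nonneg (by linarith)]
        ring
      rw [hord, hδ]
      obtain ⟨v, hv⟩ : ∃ v, v = mul F dF x P := ⟨_, rfl⟩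
      rw [← hv]
      -- the comparison of the coefficients
      have hvs : (0 : ℝ) ≤ ∑ k, (v k : ℝ) := Finset.sum_nonneg fun k _ => Nat.cast_nonneg _
      have h3 : ((lin (Pool.Agent.Y169.TH.Adm M a) q c v : ℚ) : ℝ) ≤
          c v + (1 / ((m : ℝ) + 1)) * ∑ k, (v k : ℝ) := by
        by_cases had : Pool.Agent.Y169.TH.Adm M a v
        · have h4 : ((1 - lin (Pool.Agent.Y169.TH.Adm M a) q c v : ℚ) : ℝ) =
              ((∑ k, (v k : ℚ) * q k : ℚ) : ℝ) := by rw [lin_ad had]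
          push_cast at h4
          have h5 := hy v had
          have h6 : ∑ k, (v k : ℝ) * y k - (1 / ((m : ℝ) + 1)) * ∑ k, (v k : ℝ) ≤
              ∑ k, (v k : ℝ) * (q k : ℝ) := by
            rw [Finset.mul_sum, ← Finset.sum_sub_distrib]
            refine Finset.sum_le_sum fun k _ => ?_
            have h7 := mul_le_mul_of_nonneg_left (hq k) (Nat.cast_nonneg (α := ℝ) (v k))
            linarith
          linarith
        · have h4 := lin_not (y := q) (c := c) had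
          have h5 : (0 : ℝ) ≤ (1 / ((m : ℝ) + 1)) * ∑ k, (v k : ℝ) := by positivity
          linarith
      have hm1 : (m : ℝ) * (1 / ((m : ℝ) + 1)) ≤ 1 := by
        rw [mul_one_div, div_le_one (by positivity)]
        linarith
      rcases Nat.eq_zero_or_pos m with hm | hm
      · subst hm
        dsimp only
        rw [pow_zero, P.ord_one]
        push_cast
        have : (0 : ℝ) ≤ (g : ℝ) * ∑ k, (v k : ℝ) := by positivity
        linarith
      · have hωD : ω D ≠ 0 := fun h => hm0 ⟨h, hm.ne'⟩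
        have h4 := hω2 P hP D hD hωD
        rw [← hv] at h4
        have h5 : (-(g * lin (Pool.Agent.Y169.TH.Adm M a) q c v : ℚ) : ℝ) ≤
            ((P.ord (ω D) : ℤ) : ℝ) := by exact_mod_cast h4
        dsimp only
        rw [P.ord_pow]
        push_cast at h5 ⊢
        have hgR : (0 : ℝ) ≤ (g : ℝ) := Nat.cast_nonneg _
        have hmR : (0 : ℝ) ≤ (m : ℝ) := Nat.cast_nonneg _
        have h6 := mul_le_mul_of_nonneg_left h3 (mul_nonneg hmR hgR)
        have h7 := mul_le_mul_of_nonneg_left h5 hmR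
        have h8 := mul_le_mul_of_nonneg_right hm1 (mul_nonneg hgR hvs)
        nlinarith [h6, h7, h8]
  · -- effective
    obtain ⟨y, hy0, hyD, hy⟩ := h1 hp
    obtain ⟨D, hDd⟩ : ∃ D : ℚ, D = ∑ k, (dF k : ℚ) - (d + 2 : ℕ) := ⟨_, rfl⟩
    have hDR : ∑ k, (dF k : ℝ) * y k = (D : ℝ) := by
      rw [hyD, hDd]
      push_cast
      ring
    have hD0 : 0 ≤ D := by
      have h3 : (0 : ℝ) ≤ (D : ℝ) := by
        rw [← hDR]
        exact Finset.sum_nonneg fun k _ => mul_nonneg (Nat.cast_nonneg _) (hy0 k)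
      exact_mod_cast h3
    have hdq : ∀ k, (0 : ℚ) < dF k := fun k => by exact_mod_cast hd k
    have hdr : ∀ k, (0 : ℝ) < dF k := fun k => by exact_mod_cast hd k
    -- the vertices
    obtain ⟨V, hV⟩ : ∃ V : Fin (d + 2) → Fin (d + 2) → ℚ,
      V = fun b k => if k = b then D / dF b else 0 := ⟨_, rfl⟩
    have hV0 : ∀ b k, 0 ≤ V b k := by
      intro b k
      rw [hV]
      dsimp only
      split_ifs
      · exact div_nonneg hD0 (hdq b).le
      · exact le_rfl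
    have hVD : ∀ b, ∑ k, (dF k : ℚ) * V b k = ∑ k, (dF k : ℚ) - (d + 2 : ℕ) := by
      intro b
      rw [hV]
      simp only [mul_ite, mul_zero]
      rw [Finset.sum_ite_eq', if_pos (Finset.mem_univ b), mul_div_cancel₀ _ (hdq b).ne', hDd]
    choose g hg ω hω0 hω1 hω2 using fun b => h2 (V b) (hV0 b) (hVD b)
    obtain ⟨lam, hlam0, hlam1, hlamy⟩ : ∃ lam : Fin (d + 2) → ℝ, (∀ b, 0 ≤ lam b) ∧
        ∑ b, lam b = 1 ∧ ∀ k, ∑ b, lam b * (V b k : ℝ) = y k := by
      rcases hD0.eq_or_lt with h | h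
      · have hy00 : ∀ k, y k = 0 := by
          intro k
          rw [← h, Rat.cast_zero] at hDR
          have h3 := (Finset.sum_eq_zero_iff_of_nonneg fun k _ =>
            mul_nonneg (Nat.cast_nonneg (dF k)) (hy0 k)).1 hDR k (Finset.mem_univ k)
          exact (mul_eq_zero.1 h3).resolve_left (hdr k).ne'
        refine ⟨fun _ => 1 / ((d : ℝ) + 2), fun b => by positivity, ?_, fun k => ?_⟩
        · rw [Finset.sum_const, Finset.card_univ, Fintype.card_fin, nsmul_eq_mul]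
          push_cast
          field_simp
        · rw [hy00 k, hV]
          refine Finset.sum_eq_zero fun b _ => ?_
          dsimp only
          rw [← h]
          simp
      · have hDr : (0 : ℝ) < (D : ℝ) := by exact_mod_cast h
        refine ⟨fun b => dF b * y b / D, fun b => by
          have := hy0 b
          positivity, ?_, fun k => ?_⟩
        · rw [← Finset.sum_div, hDR, div_self hDr.ne']
        · rw [hV, Finset.sum_eq_single k]
          · dsimp only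
            rw [if_pos rfl]
            push_cast
            have := (hdr k).ne'
            field_simp
          · intro b _ hb
            dsimp only
            rw [if_neg hb.symm]
            simp
          · intro h3
            exact absurd (Finset.mem_univ k) h3
    have hgR : ∀ b, (0 : ℝ) < g b := fun b => by exact_mod_cast hg b
    refine ⟨d + 2, g, fun b => lam b / g b, ω, fun b => ⟨hg b, div_nonneg (hlam0 b) (hgR b).le,
      hω0 b, hω1 b⟩, ?_, fun P hP D' hD' hne => ?_⟩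
    · rw [← hlam1]
      refine Finset.sum_congr rfl fun b _ => ?_
      rw [div_mul_cancel₀ _ (hgR b).ne']
    · rw [hδ]
      obtain ⟨v, hv⟩ : ∃ v, v = mul F dF x P := ⟨_, rfl⟩
      rw [← hv]
      have h3 : ∀ b, - (lam b * (lin (Pool.Agent.Y169.TH.Adm M a) (V b) c v : ℚ) : ℝ) ≤
          lam b / g b * ((P.ord (ω b D') : ℤ) : ℝ) := by
        intro b
        have h4 := hω2 b P hP D' hD' (hne b)
        rw [← hv] at h4
        have h5 : (-(g b * lin (Pool.Agent.Y169.TH.Adm M a) (V b) c v : ℚ) : ℝ) ≤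
            ((P.ord (ω b D') : ℤ) : ℝ) := by exact_mod_cast h4
        have h6 := mul_le_mul_of_nonneg_left h5 (div_nonneg (hlam0 b) (hgR b).le)
        refine le_trans (le_of_eq ?_) h6
        push_cast
        have := (hgR b).ne'
        field_simp
      refine le_trans ?_ (Finset.sum_le_sum fun b _ => h3 b)
      rw [Finset.sum_neg_distrib, neg_le_neg_iff]
      by_cases had : Pool.Agent.Y169.TH.Adm M a v
      · have h4 : ∀ b, ((lin (Pool.Agent.Y169.TH.Adm M a) (V b) c v : ℚ) : ℝ) =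
            1 - ∑ k, (v k : ℝ) * (V b k : ℝ) := by
          intro b
          have h5 : ((1 - lin (Pool.Agent.Y169.TH.Adm M a) (V b) c v : ℚ) : ℝ) =
              ((∑ k, (v k : ℚ) * V b k : ℚ) : ℝ) := by rw [lin_ad had]
          push_cast at h5
          linarith
        have h5 : ∑ b, lam b * ((lin (Pool.Agent.Y169.TH.Adm M a) (V b) c v : ℚ) : ℝ) =
            1 - ∑ k, (v k : ℝ) * y k := by
          simp only [h4, mul_sub, mul_one]
          rw [Finset.sum_sub_distrib, hlam1]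
          congr 1
          simp only [Finset.mul_sum]
          rw [Finset.sum_comm]
          refine Finset.sum_congr rfl fun k _ => ?_
          rw [← hlamy k, Finset.mul_sum]
          refine Finset.sum_congr rfl fun b _ => ?_
          ring
        rw [h5]
        have := hy v had
        linarith
      · calc ∑ b, lam b * ((lin (Pool.Agent.Y169.TH.Adm M a) (V b) c v : ℚ) : ℝ)
            ≤ ∑ b, lam b * c v := Finset.sum_le_sum fun b _ =>
              mul_le_mul_of_nonneg_left (lin_not had) (hlam0 b)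
          _ = c v := by rw [← Finset.sum_mul, hlam1, one_mul]

theorem rpsef_of_sec {N : ℕ} {δ : Place ℂ K → ℝ} {g : ℕ} (hg : 1 ≤ g)
    {ω : (Fin N → Derivation ℂ K K) → K} (hω0 : ω ≠ 0) (hω : RSec N δ {1} g 0 ω) : RPsef N δ := by
  obtain ⟨D0, hD0⟩ : ∃ D0, ω D0 ≠ 0 := by
    by_contra hcon
    push Not at hcon
    exact hω0 (funext hcon)
  refine ⟨{1}, fun m => ⟨g, hg, fun D => ω D ^ m, fun h0 => pow_ne_zero m hD0 (congrFun h0 D0),
    fun A D => ?_, fun P hP D hD => ?_⟩⟩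
  · have h3 := hω.1 A D
    dsimp only
    rw [h3, mul_pow, ← pow_mul]
  · by_cases hm0 : ω D = 0 ∧ m ≠ 0
    · left
      dsimp only
      rw [hm0.1, zero_pow hm0.2]
    right
    refine ⟨1, by simp, one_ne_zero, ?_⟩
    dsimp only
    rw [P.ord_pow, P.ord_one]
    rcases Nat.eq_zero_or_pos m with hm | hm
    · subst hm
      simp
    · have hωD : ω D ≠ 0 := fun h => hm0 ⟨h, hm.ne'⟩
      obtain ⟨s, -, -, hle⟩ := (hω.2 P hP D hD).resolve_left hωD
      push_cast at hle ⊢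
      have h1 := mul_le_mul_of_nonneg_left hle (Nat.cast_nonneg (α := ℝ) m)
      linarith

/-- **Covers of products of projective spaces.** -/
theorem realB {r N : ℕ} {n : Fin r → ℕ} (hr : 1 ≤ r) (hn : ∀ i, 1 ≤ n i) (hN : N = ∑ i, n i)
    {F : ∀ i, MvPolynomial (Fin (n i + 1)) ℂ} {dF : Fin r → ℕ} (hd : ∀ i, 1 ≤ dF i)
    (hh : ∀ i, (F i).IsHomogeneous (dF i)) (hs : ∀ i, Pool.Agent.Y169.CH.SmF (F i))
    {x : ∀ i, Fin (n i + 1) → K} (hx0 : ∀ i, x i 0 ≠ 0)
    (hbas : IsTranscendenceBasis ℂ (Pool.Agent.TH756.PR.aff x)) {M : Fin R → ℕ}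
    (hM : ∀ j, 0 < M j) {a : Fin R → Fin r → ℕ} (hdiv : ∀ j i, M j ∣ a j i * dF i)
    {z : Fin R → K} (hz : ∀ j, z j ^ M j = ∏ i, (aeval (x i) (F i) / x i 0 ^ dF i) ^ a j i)
    (hgen : IntermediateField.adjoin ℂ (Set.range (Pool.Agent.TH756.PR.aff x) ∪ Set.range z) = ⊤)
    {c : (Fin r → ℕ) → ℝ} (hc0 : c 0 = 0) (hc1 : ∀ v, c v ≤ 1)
    (hmul : ∀ v (k : ℕ), 1 ≤ k → Pool.Agent.Y169.CH.Adm M a v → 1 - c (k • v) ≤ k * (1 - c v))
    {δ : Place ℂ K → ℝ} (hδ : ∀ P, δ P = c (Pool.Agent.Q57.TQ.mulQ F dF x P)) :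
    (RPsef N δ ↔ ∀ v, Pool.Agent.Y169.CH.Adm M a v →
      1 - c v ≤ ∑ i, (((dF i : ℝ) - n i - 1) / dF i) * v i) ∧
    (RPsef N δ → ∃ g : ℕ, 1 ≤ g ∧ ∃ ω : (Fin N → Derivation ℂ K K) → K, ω ≠ 0 ∧
      RSec N δ {1} g 0 ω) := by
  classical
  have had0 : ∀ v, Pool.Agent.Y169.CH.Adm M a v → v ≠ 0 := fun v hv => hv.1
  have hLp : 0 < ∏ j, M j := Finset.prod_pos fun j _ => hM j
  -- (1)
  have h1 : RPsef N δ → ∀ v, Pool.Agent.Y169.CH.Adm M a v →
      1 - c v ≤ ∑ i, (((dF i : ℝ) - n i - 1) / dF i) * v i := by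
    intro hp v hv
    by_contra hcon
    push Not at hcon
    obtain ⟨ε, hε⟩ : ∃ ε : ℝ, ε = (1 - c v) - ∑ i, (((dF i : ℝ) - n i - 1) / dF i) * v i :=
      ⟨_, rfl⟩
    have hε0 : 0 < ε := by rw [hε]; linarith
    obtain ⟨k, hk⟩ := exists_nat_gt (((∑ i, v i : ℕ) : ℝ) / ε)
    obtain ⟨l, hl⟩ : ∃ l : ℕ, l = k + ∑ i, v i + 1 := ⟨_, rfl⟩
    have hl1 : 1 ≤ l := by omega
    have hlk : (k : ℝ) ≤ l := by exact_mod_cast (show k ≤ l by omega)
    obtain ⟨h2, -, -⟩ := Pool.Agent.Q57.TQ.main_d hr hn hN hd hh hs hx0 hbas hM hdiv hz hgen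
      (c := ap c l) ap_zero (ap_le_one hc1) (ap_ray hc1 had0 hmul) (ap_fg _ had0)
      (δ := fun P => ap c l (Pool.Agent.Q57.TQ.mulQ F dF x P)) (fun P => rfl)
      (Finset.univ.filter fun i => ∀ v, Pool.Agent.Y169.CH.Adm M a v →
        ∑ s, (((dF s : ℚ) - n s - 1) / dF s) * v s = 1 - ap c l v → v i = 0)
      (fun i => Finset.mem_filter_univ i)
    have h3 := h2.1 (bpsef_of_rpsef (fun P => by
      rw [hδ]
      exact ap_ge hc0 hc1 hl1 _) hp) v hv
    have h4 : ((1 - ap c l v : ℚ) : ℝ) ≤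
        ((∑ i, (((dF i : ℚ) - n i - 1) / dF i) * v i : ℚ) : ℝ) := by exact_mod_cast h3
    push_cast at h4
    have h5 := ap_close (c := c) hl1 hv.1 (show ∑ k, v k ≤ l by omega)
    have hl0 : (0 : ℝ) < l := by exact_mod_cast hl1
    have h6 : ((∑ i, v i : ℕ) : ℝ) / l < ε := by
      rw [div_lt_iff₀ hε0] at hk
      rw [div_lt_iff₀ hl0]
      calc ((∑ i, v i : ℕ) : ℝ) < k * ε := hk
        _ ≤ l * ε := mul_le_mul_of_nonneg_right hlk hε0.le
        _ = ε * l := mul_comm _ _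
    linarith
  -- (2)
  have h2 : (∀ v, Pool.Agent.Y169.CH.Adm M a v →
      1 - c v ≤ ∑ i, (((dF i : ℝ) - n i - 1) / dF i) * v i) →
      ∃ g : ℕ, 1 ≤ g ∧ ∃ ω : (Fin N → Derivation ℂ K K) → K, ω ≠ 0 ∧ RSec N δ {1} g 0 ω := by
    intro hpos
    obtain ⟨y, hy⟩ : ∃ y : Fin r → ℚ, y = fun i => ((dF i : ℚ) - n i - 1) / dF i := ⟨_, rfl⟩
    have hyv : ∀ v, Pool.Agent.Y169.CH.Adm M a v → 1 - c v ≤ ((∑ k, (v k : ℚ) * y k : ℚ) : ℝ) := by
      intro v hv
      refine (hpos v hv).trans (le_of_eq ?_)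
      rw [hy]
      push_cast
      exact Finset.sum_congr rfl fun i _ => mul_comm _ _
    have hy0 : ∀ v, Pool.Agent.Y169.CH.Adm M a v → 0 ≤ ∑ k, (v k : ℚ) * y k := by
      intro v hv
      have h3 := hyv v hv
      have h4 : (0 : ℝ) ≤ ((∑ k, (v k : ℚ) * y k : ℚ) : ℝ) := by linarith [hc1 v]
      exact_mod_cast h4
    obtain ⟨-, h3, -⟩ := Pool.Agent.Q57.TQ.main_d hr hn hN hd hh hs hx0 hbas hM hdiv hz hgen
      (c := lin (Pool.Agent.Y169.CH.Adm M a) y c) (lin_zero had0 hc0) (lin_le_one' hy0 hc1)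
      (lin_ray admB_smul) (fg_lin hLp (Pool.Agent.Y169.CH.adm_single hM a) fun v hv => lin_ad hv)
      (δ := fun P => lin (Pool.Agent.Y169.CH.Adm M a) y c (Pool.Agent.Q57.TQ.mulQ F dF x P))
      (fun P => rfl)
      (Finset.univ.filter fun i => ∀ v, Pool.Agent.Y169.CH.Adm M a v →
        ∑ s, (((dF s : ℚ) - n s - 1) / dF s) * v s =
          1 - lin (Pool.Agent.Y169.CH.Adm M a) y c v → v i = 0)
      (fun i => Finset.mem_filter_univ i)
    have h4 := h3.2 fun v hv => by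
      rw [lin_ad hv, hy]
      exact le_of_eq (Finset.sum_congr rfl fun i _ => mul_comm _ _)
    obtain ⟨g, hg, ω, hω0, hω1, hω2⟩ := exists_form h4
    refine ⟨g, hg, ω, hω0, hω1, fun P hP D hD => ?_⟩
    by_cases h0 : ω D = 0
    · exact Or.inl h0
    right
    refine ⟨1, by simp, one_ne_zero, ?_⟩
    have h5 := hω2 P hP D hD h0
    have h6 : (-(g * lin (Pool.Agent.Y169.CH.Adm M a) y c
        (Pool.Agent.Q57.TQ.mulQ F dF x P) : ℚ) : ℝ) ≤ ((P.ord (ω D) : ℤ) : ℝ) := by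
      exact_mod_cast h5
    have h7 : ((lin (Pool.Agent.Y169.CH.Adm M a) y c (Pool.Agent.Q57.TQ.mulQ F dF x P) : ℚ) : ℝ) ≤
        c (Pool.Agent.Q57.TQ.mulQ F dF x P) := by
      by_cases had : Pool.Agent.Y169.CH.Adm M a (Pool.Agent.Q57.TQ.mulQ F dF x P)
      · have h8 := hyv _ had
        rw [← lin_ad (c := c) had] at h8
        push_cast at h8
        linarith
      · exact lin_not had
    rw [hδ]
    push_cast at h6 ⊢
    have h8 := mul_le_mul_of_nonneg_left h7 (Nat.cast_nonneg (α := ℝ) g)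
    linarith
  refine ⟨⟨h1, fun hpos => ?_⟩, fun hp => h2 (h1 hp)⟩
  obtain ⟨g, hg, ω, hω0, hω⟩ := h2 hpos
  exact rpsef_of_sec hg hω0 hω

end Pool.Agent.Q35.WR
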